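import Mathlib
import Pool.Agent.V1198.XLogX

/-!
# MP_8983f3, Q1: a negative answer
-/

set_option autoImplicit false

noncomputable section

open TopologicalSpace

namespace Pool.Agent.Results.MP_8983f3_an.NotNormable

section Defs

variable {X Y M : Type} [NormedAddCommGroup X] [NormedSpace ℝ X] [NormedAddCommGroup Y]
  [NormedSpace ℝ Y] [NormedAddCommGroup M] [NormedSpace ℝ M]

/-- `M` is (via the injection `j`) a linear subspace of `Y` with a larger norm. -/
def IsSubspace (j : M →L[ℝ] Y) : Prop := Function.Injective j ∧ ∀ m, ‖j m‖ ≤ ‖m‖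

/-- `φ` is linear modulo `M`. -/
def LinearMod (j : M →L[ℝ] Y) (φ : X → Y) : Prop :=
  ∀ (x y : X) (a b : ℝ), ∃ m, j m = φ (a • x + b • y) - (a • φ x + b • φ y)

/-- `φ` is a Borel map. -/
def IsBorel (φ : X → Y) : Prop := @Measurable X Y (borel X) (borel Y) φ

/-- `φ⁻¹(M)`. -/
def preM (j : M →L[ℝ] Y) (φ : X → Y) : Set X := {x | ∃ m, j m = φ x}

/-- The subset `S` of `X` carries a separable complete norm whose Borel sets are exactly the Borel
subsets of `X` contained in `S`. -/
def BorelNormable (S : Set X) : Prop :=
  ∃ (W : Type) (_ : NormedAddCommGroup W) (_ : NormedSpace ℝ W) (_ : CompleteSpace W)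
    (_ : SeparableSpace W) (i : W →ₗ[ℝ] X), Function.Injective i ∧ Set.range i = S ∧
      ∀ B : Set W, @MeasurableSet W (borel W) B ↔ @MeasurableSet X (borel X) (i '' B)

end Defs

open Pool.Agent.V1198.XL

/-- There are separable Banach spaces `X, Y, M`, `M ⊆ Y`, and a Borel map `φ : X → Y` which is
linear modulo `M` such that the Polish vector space `φ⁻¹(M)` is not a Banach space. -/
theorem result :
    ∃ (X : Type) (_ : NormedAddCommGroup X) (_ : NormedSpace ℝ X) (_ : CompleteSpace X)
      (_ : SeparableSpace X) (Y : Type) (_ : NormedAddCommGroup Y) (_ : NormedSpace ℝ Y)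
      (_ : CompleteSpace Y) (_ : SeparableSpace Y) (M : Type) (_ : NormedAddCommGroup M)
      (_ : NormedSpace ℝ M) (_ : CompleteSpace M) (_ : SeparableSpace M) (j : M →L[ℝ] Y)
      (φ : X → Y), IsSubspace j ∧ LinearMod j φ ∧ IsBorel φ ∧ ¬ BorelNormable (preM j φ) := by
  refine ⟨E1, inferInstance, inferInstance, inferInstance, inferInstance, E1, inferInstance,
    inferInstance, inferInstance, inferInstance, E1, inferInstance, inferInstance, inferInstance,
    inferInstance, D, Dpsi, ⟨D_injective, norm_D_le⟩, ?_, measurable_Dpsi, ?_⟩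
  · intro x y a b
    exact Dpsi_linear_mod a b x y
  · rintro ⟨W, _, _, _, _, i, hi, hrange, hB⟩
    borelize W
    borelize E1
    -- the inclusion is Borel
    have hS : MeasurableSet (Set.range i) := by
      have h := hB Set.univ
      rw [Set.image_univ, ← BorelSpace.measurable_eq (α := W),
        ← BorelSpace.measurable_eq (α := E1)] at h
      exact h.mp MeasurableSet.univ
    have him : Measurable i := by
      intro B hBm
      have h := hB (i ⁻¹' B)
      rw [Set.image_preimage_eq_inter_range, ← BorelSpace.measurable_eq (α := W),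
        ← BorelSpace.measurable_eq (α := E1)] at h
      exact h.mpr (hBm.inter hS)
    have hc : Continuous i := continuous_of_measurable i him
    refine core (⟨i, hc⟩ : W →L[ℝ] E1) hi (ContinuousLinearMap.id ℝ E1) fun x => ?_
    rw [← exists_D_eq_Dpsi_iff]
    show x ∈ Set.range i ↔ _
    rw [hrange]
    rfl

end Pool.Agent.Results.MP_8983f3_an.NotNormable
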